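import Pool.Agent.L0h30.EN.Fin

/-!
Slice discs with arbitrarily many triple points such that each component of the double point set of
the projection has few end points on the link. In the projection of a surface, the triple points are
the Reidemeister moves of type III in its movie. The movies here go from the link into the 4-ball, so
that births of components are the local maxima of the distance from the centre of the 4-ball. Every
crossing belongs to a double curve of the projection, named by its colour (double curves with branch
points have even names); `curve k true` and `curve k false` are the names of the two curves in the
surface lying over the double curve with colour `k` (which are one curve, if the colour is even). If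
each double curve has its own name, an odd one if both of its ends lie on the link, then each curve of
the preimage has at most two ends on the link.
-/

namespace Pool.Agent.Results.MP_752436_gt.FewEndsEach

open Pool.Agent.Y468.SR Pool.Agent.Y874.TP Pool.Agent.R800.TP

/-- The overpassages of the link `D` at the crossings belonging to the component `g` of the double
point set, i.e. the end points of this component on `D`; `cmp k` is the name of the component
containing the double curve with colour `k`. -/
def endpoints (D : Code) (cmp : ℕ → ℕ) (g : ℕ) : List Pass :=
  (passes D).filter fun q => q.isOver && (cmp (colour q.crossing) == g)

/-- The component `g` has at most three end points on `D`, and if it has three, then these crossings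
of `D` do not all have the same sign. -/
def FewEnds (D : Code) (cmp : ℕ → ℕ) (g : ℕ) : Prop :=
  (endpoints D cmp g).length ≤ 2 ∨ ((endpoints D cmp g).length = 3 ∧
    ∃ q ∈ endpoints D cmp g, ∃ r ∈ endpoints D cmp g, q.isPos ≠ r.isPos)

/-- Any two different double curves in the component `g` having ends on `D` cross each other evenly:
each preimage of the first one crosses each preimage of the second one an even number of times, `T`
being the list of the triple points. -/
def EvenCurves (D : Code) (T : List (ℕ × ℕ × ℕ)) (cmp : ℕ → ℕ) (g : ℕ) : Prop :=
  ∀ q ∈ passes D, ∀ r ∈ passes D, cmp (colour q.crossing) = g → cmp (colour r.crossing) = g →
    colour q.crossing ≠ colour r.crossing → Even ((T.flatMap crs).count s(ends q, ends r))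

/-- Let the classical link with Gauss code `L` bound disjoint discs in the 4-ball by a movie, and let
`D` be the link in this movie before the first birth of a component. The discs bounded by `D` are
arbitrary. Let `Z` be a set of double curves which do not meet `D` (for instance the empty set), such
that at least two or none of the double curves through each triple point belong to `Z`; `T` is the
list of the triples of colours at the triple points of the second kind. Let every curve of the
preimage have at most two ends on `D` (`h₃`), and let `cmp` name the components (or unions of
components) of the set of the double points on the curves not in `Z`: double curves meeting at the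
triple points in `T` are in the same component (`h₄`). Suppose that each component meeting `D` has at
most three end points on `D`, not all of the same sign if there are three, or that any two different
double curves in it with ends on `D` cross each other evenly (`h₅`). Then `L` bounds disjoint ribbon
discs, i.e. discs given by a movie without births. There is no condition on the numbers of triple
points, branch points, double curves and components. -/
theorem result (L : List (List Pass)) (Z : ℕ → Prop) (D : Code) (T : List (ℕ × ℕ × ℕ))
    (cmp : ℕ → ℕ) (h₁ : Movie true false L.zipIdx D) (h₂ : TMovie false Z D T)
    (hZ : ∀ p ∈ passes D, ¬Z (colour p.crossing))
    (h₃ : ∀ κ : ℕ × Bool, ((passes D).map ends).count κ ≤ 2)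
    (h₄ : ∀ t ∈ T, cmp t.2.1 = cmp t.1 ∧ cmp t.2.2 = cmp t.1)
    (h₅ : ∀ p ∈ passes D, FewEnds D cmp (cmp (colour p.crossing)) ∨
      EvenCurves D T cmp (cmp (colour p.crossing))) :
    Movie true false L.zipIdx [] := by
  have hn : (L.zipIdx.map Prod.snd).Nodup := by
    rw [List.zipIdx_map_snd]
    exact List.nodup_range'
  exact h₁.trans (Pool.Agent.L0h30.EN.few_ribbon h₂ hZ (nodup_movie h₁ hn) h₃ h₄ h₅)

end Pool.Agent.Results.MP_752436_gt.FewEndsEach
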