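import Pool.Agent.L0h18.RB.HW

/-!
# The hyperbolic mean curvature of slice discs and ribbon discs

For a disc `φ` in the unit ball of four-space, smoothly and properly embedded and transversal to the
sphere (`SliceDisc`), let `H` be the mean curvature vector and `dA` the area element with respect to
the hyperbolic metric of the ball, and `d` the hyperbolic distance from the origin. The energy

  `∫ e^(3d) ((|H| - 1)_+)² dA`                                              (`densHyp`)

measures how much the disc curves more strongly than horospheres. A disc is a ribbon disc if the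
distance from the origin is a Morse function on it without local maximum in the interior.

1. If the energy is less than `4 π (m + 1)`, then a diffeomorphism of the ball minus a boundary
   point, which is the identity on the sphere, turns the disc into a disc with the same boundary on
   which the distance from the origin is a Morse function with at most `m` local maxima in the
   interior. In particular the boundary of a disc of energy less than `4 π` bounds a ribbon disc.
   (Small round spheres around the origin have energy close to `4 π`.)
2. The same is true with the directed energy: the integral over the disc and over the circles of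
   unit normal vectors `n` of `(rad / (1 - rad))³ ((H · n - 1)_+)² dA`, and the bound
   `2 π² (m + 1)`; here `rad` is the Euclidean radius of the horosphere with inner normal `n`.
3. If `|H| ≤ 1` everywhere, then the boundary bounds a ribbon disc.
4. The same for compact surfaces (`PSurf`) of any topological type, with the infimum of the energies
   over the countable families of parametrised pieces which cover the surface.

The horospherical curvature of the library (helper503) is estimated by the mean curvature.
-/

set_option autoImplicit false

namespace Pool.Agent.Results.MP_752436_gt.HyperbolicMeanCurvature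

open scoped ContDiff
open Pool.Agent.Y503.RB Pool.Agent.L0h18.HW
open MeasureTheory Metric

theorem result :
    -- slice discs
    (∀ (φ : ℂ → E4), SliceDisc φ → ∀ m : ℕ,
      (∫⁻ z in ball (0 : ℂ) 1, ENNReal.ofReal (densHyp φ z) <
          ENNReal.ofReal (4 * Real.pi * (m + 1)) ∨
        ∫⁻ z in ball (0 : ℂ) 1, dirAt φ z < ENNReal.ofReal (2 * Real.pi ^ 2 * (m + 1))) →
      ∃ ξ : E4, ‖ξ‖ = 1 ∧ (∀ z ∈ closedBall (0 : ℂ) 1, φ z ≠ ξ) ∧
        SliceDisc (fun w => push ξ (φ w)) ∧
        (∀ z ∈ sphere (0 : ℂ) 1, push ξ (φ z) = φ z) ∧
        MorseDisc (fun w => push ξ (φ w)) m) ∧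
    -- discs with hyperbolic mean curvature at most one
    (∀ (φ : ℂ → E4), SliceDisc φ → (∀ z ∈ ball (0 : ℂ) 1, ‖hypCurv φ z‖ ≤ 1) →
      ∃ ξ : E4, ‖ξ‖ = 1 ∧ (∀ z ∈ closedBall (0 : ℂ) 1, φ z ≠ ξ) ∧
        SliceDisc (fun w => push ξ (φ w)) ∧
        (∀ z ∈ sphere (0 : ℂ) 1, push ξ (φ z) = φ z) ∧
        MorseDisc (fun w => push ξ (φ w)) 0) ∧
    -- compact surfaces
    (∀ (F : Set E4), PSurf F → ∀ m : ℕ, surfE F < ENNReal.ofReal (4 * Real.pi * (m + 1)) →
      ∃ ξ : E4, ‖ξ‖ = 1 ∧ ξ ∉ F ∧
        (∀ x ∈ F, ContDiffAt ℝ ∞ (push ξ) x ∧ ContDiffAt ℝ ∞ (pull ξ) (push ξ x) ∧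
          pull ξ (push ξ x) = x) ∧
        (∀ x ∈ F, ‖x‖ = 1 → push ξ x = x) ∧
        PSurf (push ξ '' F) ∧ push ξ '' F ∩ sphere 0 1 = F ∩ sphere 0 1 ∧
        MorseSurf (push ξ '' F) m) := by
  refine ⟨fun φ h m hT => ?_, fun φ h hc => ?_, fun F h m hT => surfaces F h m (hyp_surf hT)⟩
  · exact disc φ h m (hT.elim (fun h1 => dir_disc h (hyp_disc h h1)) (dir_disc h))
  · refine disc φ h 0 (dir_disc h (hyp_disc h ?_))
    rw [small_disc hc]
    have := Real.pi_pos
    simp only [Nat.cast_zero, zero_add, mul_one, ENNReal.ofReal_pos]
    positivity

end Pool.Agent.Results.MP_752436_gt.HyperbolicMeanCurvature
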