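import Pool.Agent.L0h30.TT.Main

/-!
Slice discs such that each component of the double point set of the projection which meets the link
contains at most three triple points. In the projection of a surface, the triple points are the
Reidemeister moves of type III in its movie. The movies here go from the link into the 4-ball, so that
births of components are the local maxima of the distance from the centre of the 4-ball. Every
crossing belongs to a connected component of the set of double points (the closure of the set of the
double points, that is, the union of the double curves), named by its colour. The names of components
with branch points are even; the names of the other ones are arbitrary.
-/

namespace Pool.Agent.Results.MP_752436_gt.ThreeTriplePointsEach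

open Pool.Agent.Y468.SR Pool.Agent.Y874.TP Pool.Agent.R800.TP

/-- Let the classical link with Gauss code `L` bound disjoint discs in the 4-ball by a movie, and let
`D` be the link in this movie before the first birth of a component. The discs bounded by `D` are
given by an arbitrary movie. Let the crossings in this movie be coloured by the components (or unions
of components) of the double point set of the projection; this means that the colours are kept by all
moves and that the three crossings at each triple point have the same colour (`h₃`). Let `Z` be a set
of components which do not meet `D` (`hZ`); `T` is the list of the triples of colours at the triple
points not in the components belonging to `Z`. If each component not in `Z` contains at most three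
triple points (`h₄`), then `L` bounds disjoint ribbon discs, i.e. discs given by a movie without
births. There is no condition on the triple points in components which do not meet `D`, and the
number of components is arbitrary. -/
theorem result (L : List (List Pass)) (Z : ℕ → Prop) (D : Code) (T : List (ℕ × ℕ × ℕ))
    (h₁ : Movie true false L.zipIdx D) (h₂ : TMovie false Z D T)
    (hZ : ∀ p ∈ passes D, ¬Z (colour p.crossing))
    (h₃ : ∀ t ∈ T, t.2.1 = t.1 ∧ t.2.2 = t.1) (h₄ : ∀ k, (T.map Prod.fst).count k ≤ 3) :
    Movie true false L.zipIdx [] := by
  have hn : (L.zipIdx.map Prod.snd).Nodup := by
    rw [List.zipIdx_map_snd]
    exact List.nodup_range'
  exact h₁.trans (Pool.Agent.L0h30.TT.ribbon_of_three h₂ hZ (nodup_movie h₁ hn) h₃ h₄)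

end Pool.Agent.Results.MP_752436_gt.ThreeTriplePointsEach
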