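import Pool.Agent.L0h30.SR.Movie

/-!
Slice discs with arbitrarily many triple points such that no three curves of the preimage of the
double curves cross one another. In the projection of a surface, the triple points are the
Reidemeister moves of type III in its movie. The movies here go from the link into the 4-ball, so that
births of components are the local maxima of the distance from the centre of the 4-ball. Every
crossing belongs to a double curve of the projection, named by its colour (several double curves may
have one name); `curve k true` and `curve k false` are the names of the curves in the surface lying
over the double curves with colour `k` in the upper and in the lower sheet (which are one curve, if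
the double curve has branch points, that is, if the colour is even).
-/

namespace Pool.Agent.Results.MP_752436_gt.TriangleFreeDiscs

open Pool.Agent.Y468.SR Pool.Agent.Y874.TP Pool.Agent.R800.TP

/-- Let the classical link with Gauss code `L` bound disjoint discs in the 4-ball by a movie, and let
`D` be the link in this movie before the first birth of a component. The discs bounded by `D` are
given by an arbitrary movie. Let `Z` be a set of double curves which do not meet `D`, such that at
least two or none of the double curves through each triple point belong to `Z`; `T` is the list of the
triples of colours at the triple points of the second kind. Suppose that there are no three (equal or
different) curves of the preimage any two of which cross one another at these triple points (`h₃`),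
and that whenever two curves of the preimage cross one another at two of these triple points, the
same double curves (top/middle, top/bottom, middle/bottom) pass through both of them (`h₄`). Then `L`
bounds disjoint ribbon discs, i.e. discs given by a movie without births.

For instance, this applies if the double curves can be divided into two classes such that the double
curve of the top and the bottom sheet at each triple point belongs to the second class, the other two
belong to the first class, and there are no branch points (`T` contains the triple `(1, 3, 1)` an
arbitrary number of times). There is no condition on the numbers of triple points and crossings. -/
theorem result (L : List (List Pass)) (Z : ℕ → Prop) (D : Code) (T : List (ℕ × ℕ × ℕ))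
    (h₁ : Movie true false L.zipIdx D) (h₂ : TMovie false Z D T)
    (hZ : ∀ p ∈ passes D, ¬Z (colour p.crossing))
    (h₃ : ∀ α β γ : ℕ × Bool, s(α, β) ∈ T.flatMap crs → s(β, γ) ∈ T.flatMap crs →
      s(γ, α) ∉ T.flatMap crs)
    (h₄ : ∀ t ∈ T, ∀ t' ∈ T, ∀ e ∈ crs t, e ∈ crs t' → t' = t) :
    Movie true false L.zipIdx [] := by
  have hn : (L.zipIdx.map Prod.snd).Nodup := by
    rw [List.zipIdx_map_snd]
    exact List.nodup_range'
  exact h₁.trans (Pool.Agent.L0h30.SR.ribbon_of_free h₂ hZ (nodup_movie h₁ hn) h₃ h₄)

end Pool.Agent.Results.MP_752436_gt.TriangleFreeDiscs
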